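import Pool.Agent.W622.ETC.Stm

set_option autoImplicit false

namespace Pool.Agent.W481.ELT

open Pool.Agent.W622.ETC Module

theorem t_IDIM : S_IDIM := by
  classical
  intro V _ _ _ s
  induction s using Finset.induction_on with
  | empty =>
      intro _
      simp
  | insert X s hX ih =>
      intro h
      have h1 : sSupIndep (s : Set (DSub V)) := h.mono (by
        intro Y hY
        simp only [Finset.coe_insert, Set.mem_insert_iff]
        exact Or.inr hY)
      have h2 : Disjoint X (sSup (s : Set (DSub V))) := by
        have h3 := h (a := X) (by simp)
        have h4 : ((insert X s : Finset (DSub V)) : Set (DSub V)) \ {X} = (s : Set (DSub V)) := by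
          ext Y
          simp only [Finset.coe_insert, Set.mem_sdiff, Set.mem_insert_iff, Finset.mem_coe,
            Set.mem_singleton_iff]
          constructor
          · rintro ⟨h5 | h5, h6⟩
            · exact absurd h5 h6
            · exact h5
          · intro h5
            refine ⟨Or.inr h5, ?_⟩
            rintro rfl
            exact hX h5
        rw [h4] at h3
        exact h3
      have h5 : (sSup ((insert X s : Finset (DSub V)) : Set (DSub V)) : DSub V) =
          X ⊔ sSup (s : Set (DSub V)) := by
        rw [Finset.coe_insert, sSup_insert]
      rw [h5, Finset.sum_insert hX, ← ih h1]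
      have h6 := Submodule.finrank_sup_add_finrank_inf_eq X (sSup (s : Set (DSub V)))
      rw [h2.eq_bot, finrank_bot, add_zero] at h6
      exact h6

end Pool.Agent.W481.ELT
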